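import Pool.Agent.H626R3.CT.Stmts

set_option autoImplicit false

open scoped Classical symmDiff

namespace Pool.Agent.H911R3.CT

open Pool.Agent.H626R3.CT

lemma ent_sub {X : Type} (A B : Op X) (x y : X) : ent (A - B) x y = ent A x y - ent B x y := by
  unfold ent; rw [sub_apply, inner_sub_right]

lemma norm_dl {X : Type} (x : X) : ‖(dl x : L2 X)‖ = 1 := by
  unfold dl; rw [lp.norm_single (by norm_num)]; simp

lemma norm_ent_le {X : Type} (A : Op X) (x y : X) : ‖ent A x y‖ ≤ ‖A‖ := by
  unfold ent
  calc ‖inner ℂ (dl x) (A (dl y))‖ ≤ ‖(dl x : L2 X)‖ * ‖A (dl y)‖ := norm_inner_le_norm _ _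
    _ ≤ 1 * (‖A‖ * ‖(dl y : L2 X)‖) := by rw [norm_dl]; gcongr; exact A.le_opNorm _
    _ = ‖A‖ := by rw [norm_dl]; ring

lemma norm_cf_le (w : ℕ → ℂ) (hw : ∀ l, ‖w l‖ = 1) (L : ℕ) (S : Finset ℕ) : ‖cf w L S‖ ≤ 1 := by
  unfold cf
  rw [norm_prod]
  apply Finset.prod_le_one
  · intro i _; exact norm_nonneg _
  · intro i _
    have h1 : ‖1 - w i‖ ≤ 2 := by
      calc ‖1 - w i‖ ≤ ‖(1:ℂ)‖ + ‖w i‖ := norm_sub_le _ _
        _ = 2 := by rw [hw]; norm_num
    have h2 : ‖1 + w i‖ ≤ 2 := by
      calc ‖1 + w i‖ ≤ ‖(1:ℂ)‖ + ‖w i‖ := norm_add_le _ _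
        _ = 2 := by rw [hw]; norm_num
    split_ifs
    · rw [norm_div]; simp; linarith
    · rw [norm_div]; simp; linarith

lemma dist_flip {X Y : Type} [MetricSpace Y] (e : Y ≃ X × Finset ℕ) (W : ℕ → ℝ)
    (hW : ∀ l x F, dist (e.symm (x, F)) (e.symm (x, F ∆ {l})) ≤ W l) (x : X) :
    ∀ (B : Finset ℕ) (F : Finset ℕ),
      dist (e.symm (x, F)) (e.symm (x, F ∆ B)) ≤ ∑ l ∈ B, |W l| := by
  intro B
  induction B using Finset.induction_on with
  | empty =>
    intro F
    have h : F ∆ (∅ : Finset ℕ) = F := by rw [← Finset.bot_eq_empty, symmDiff_bot]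
    rw [h]; simp
  | insert a B ha ih =>
    intro F
    rw [Finset.sum_insert ha]
    have h1 : F ∆ insert a B = (F ∆ {a}) ∆ B := by
      rw [symmDiff_assoc]; congr 1; ext l
      simp only [Finset.mem_symmDiff, Finset.mem_insert, Finset.mem_singleton]
      by_cases h : l = a
      · subst h; simp [ha]
      · simp [h]
    calc dist (e.symm (x, F)) (e.symm (x, F ∆ insert a B))
        ≤ dist (e.symm (x, F)) (e.symm (x, F ∆ {a})) +
          dist (e.symm (x, F ∆ {a})) (e.symm (x, (F ∆ {a}) ∆ B)) := by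
            rw [h1]; exact dist_triangle _ _ _
      _ ≤ |W a| + ∑ l ∈ B, |W l| := add_le_add ((hW a x F).trans (le_abs_self _)) (ih _)

lemma gen {X Y : Type} (e : Y ≃ X × Finset ℕ) (f : Y → ℝ) (hf : ∀ y, 0 ≤ f y) (F : Finset ℕ)
    (B : Finset X) (s : Finset Y) (L : ℕ) (h0 : ∀ y ∈ s, f y ≠ 0 → (e y).1 ∈ B)
    (hL : ∀ y ∈ s, F ∆ (e y).2 ⊆ Finset.range L) (M : ℝ)
    (hM : ∀ x' ∈ B, ∑ S ∈ (Finset.range L).powerset, f (e.symm (x', F ∆ S)) ≤ M) :
    ∑ y ∈ s, f y ≤ B.card * M := by
  calc ∑ y ∈ s, f y = ∑ y ∈ s.filter (fun y => (e y).1 ∈ B), f y :=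
        (Finset.sum_filter_of_ne (fun y hy h => h0 y hy h)).symm
    _ ≤ ∑ y ∈ (B ×ˢ (Finset.range L).powerset).image (fun p => e.symm (p.1, F ∆ p.2)), f y := by
        apply Finset.sum_le_sum_of_subset_of_nonneg
        · intro y hy
          rw [Finset.mem_filter] at hy
          rw [Finset.mem_image]
          refine ⟨((e y).1, F ∆ (e y).2), ?_, ?_⟩
          · rw [Finset.mem_product, Finset.mem_powerset]
            exact ⟨hy.2, hL y hy.1⟩
          · simp
        · intro y _ _; exact hf y
    _ = ∑ p ∈ B ×ˢ (Finset.range L).powerset, f (e.symm (p.1, F ∆ p.2)) := by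
        apply Finset.sum_image
        rintro ⟨a, S⟩ _ ⟨b, S'⟩ _ h
        have h1 := e.symm.injective h
        simp only [Prod.mk.injEq] at h1
        obtain ⟨h2, h3⟩ := h1
        rw [h2, symmDiff_right_injective F h3]
    _ = ∑ x' ∈ B, ∑ S ∈ (Finset.range L).powerset, f (e.symm (x', F ∆ S)) :=
        Finset.sum_product _ _ _
    _ ≤ ∑ x' ∈ B, M := Finset.sum_le_sum hM
    _ = B.card * M := by rw [Finset.sum_const, nsmul_eq_mul]

lemma mem_img {L0 : ℕ} {D G : Finset ℕ}
    (h : D.filter (L0 ≤ ·) = G.filter (L0 ≤ ·)) :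
    D.filter (· < L0) ∪ G.filter (L0 ≤ ·) = D := by
  rw [← h]
  ext l
  simp only [Finset.mem_union, Finset.mem_filter]
  constructor
  · rintro (h | h) <;> exact h.1
  · intro h1
    rcases lt_or_ge l L0 with h2 | h2
    · exact Or.inl ⟨h1, h2⟩
    · exact Or.inr ⟨h1, h2⟩

lemma fin_of_subset {X Y : Type} (B : Finset X) (N L0 : ℕ) (hB : B.card ≤ N)
    (φ : X × Finset ℕ → Y) (A : Set Y)
    (hA : A ⊆ ↑((B ×ˢ (Finset.range L0).powerset).image φ)) :
    A.Finite ∧ A.ncard ≤ N * 2 ^ L0 := by
  refine ⟨(Finset.finite_toSet _).subset hA, ?_⟩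
  calc A.ncard ≤ (↑((B ×ˢ (Finset.range L0).powerset).image φ) : Set Y).ncard :=
        Set.ncard_le_ncard hA (Finset.finite_toSet _)
    _ = ((B ×ˢ (Finset.range L0).powerset).image φ).card := Set.ncard_coe_finset _
    _ ≤ (B ×ˢ (Finset.range L0).powerset).card := Finset.card_image_le
    _ = B.card * 2 ^ L0 := by
        rw [Finset.card_product, Finset.card_powerset, Finset.card_range]
    _ ≤ N * 2 ^ L0 := Nat.mul_le_mul_right _ hB

theorem tApprox : TApprox := by
  intro hS hKer hL1 X Y _ _ e u hX hY hu1 hu2 hW hLift Φ hΦ T hT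
  obtain ⟨R, hR⟩ := hT
  obtain ⟨K, hK0, hg⟩ := hLift R
  choose W hW using hW
  choose LU hLU using hu2
  have hg' : ∀ x x' : X, ∃ g : Finset ℕ, dist x x' ≤ R →
      ((∀ F, dist (e.symm (x, F)) (e.symm (x', F ∆ g)) ≤ K) ∧
        ∀ l, ‖u l x' * (if l ∈ g then -1 else 1) - u l x‖ ≤ K / 3 ^ l) := by
    intro x x'
    by_cases h : dist x x' ≤ R
    · obtain ⟨g, hg⟩ := hg x x' h; exact ⟨g, fun _ => hg⟩
    · exact ⟨∅, fun h' => absurd h' h⟩
  clear hg
  choose g hg using hg'
  obtain ⟨N, hN⟩ := hX R
  have how : ∀ x' x l, ‖om u x' x l‖ = 1 := by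
    intro x' x l; unfold om; rw [norm_mul, RCLike.norm_conj, hu1, hu1, one_mul]
  have hws : ∀ x' x, dist x x' ≤ R →
      ∀ l, ‖om u x' x l * (if l ∈ g x x' then -1 else 1) - 1‖ ≤ K / 3 ^ l := by
    intro x' x h l
    have h1 := (hg x x' h).2 l
    have h2 : (starRingEnd ℂ) (u l x') * u l x' = 1 := by
      rw [Complex.conj_mul', hu1]; norm_num
    have h3 : om u x' x l * (if l ∈ g x x' then -1 else 1) - 1 =
        -((starRingEnd ℂ) (u l x') * (if l ∈ g x x' then -1 else 1)) *
          (u l x' * (if l ∈ g x x' then -1 else 1) - u l x) := by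
      unfold om
      split_ifs
      · linear_combination h2
      · linear_combination h2
    rw [h3, norm_mul, norm_neg, norm_mul, RCLike.norm_conj, hu1, one_mul]
    have h4 : ‖(if l ∈ g x x' then (-1 : ℂ) else 1)‖ = 1 := by split_ifs <;> simp
    rw [h4, one_mul]; exact h1
  have hent : ∀ x' x, ¬ dist x x' ≤ R → ent T x' x = 0 := by
    intro x' x h
    apply hR; rw [dist_comm]; exact not_le.1 h
  -- main estimate
  have main : ∀ L0 : ℕ, ∃ S : Op Y, FinProp S ∧
      ‖Φ T - S‖ ≤ N * (‖T‖ * (2 ^ L0 * (Real.exp (2 * K / 3 ^ L0) - 1))) := by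
    intro L0
    set c : X → X → Finset ℕ → ℂ := fun x' x D =>
      if D.filter (L0 ≤ ·) = (g x x').filter (L0 ≤ ·) then cf (om u x' x) L0 D else 0 with hc
    have hcn : ∀ x' x D, ‖c x' x D‖ ≤ 1 := by
      intro x' x D
      simp only [hc]
      split_ifs
      · exact norm_cf_le _ (how x' x) _ _
      · simp
    obtain ⟨S, hSk⟩ := hKer Y
      (fun y' y => ent T (e y').1 (e y).1 * c (e y').1 (e y).1 ((e y').2 ∆ (e y).2)) ‖T‖
      (N * 2 ^ L0)
      (by
        intro y' y
        rw [norm_mul]
        calc _ ≤ ‖T‖ * 1 := mul_le_mul (norm_ent_le _ _ _) (hcn _ _ _) (norm_nonneg _)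
              (norm_nonneg _)
          _ = ‖T‖ := mul_one _)
      (by
        intro y
        apply fin_of_subset (hN (e y).1).1.toFinset N L0
          (by rw [← Set.ncard_eq_toFinset_card _ (hN (e y).1).1]; exact (hN (e y).1).2)
          (fun p => e.symm (p.1, (e y).2 ∆ (p.2 ∪ (g (e y).1 p.1).filter (L0 ≤ ·))))
        intro y' hy'
        simp only [Set.mem_ofPred_eq] at hy'
        have h1 := left_ne_zero_of_mul hy'
        have h2 := right_ne_zero_of_mul hy'
        have h3 : dist (e y).1 (e y').1 ≤ R := by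
          by_contra h; exact h1 (hent _ _ h)
        have h4 : ((e y').2 ∆ (e y).2).filter (L0 ≤ ·) =
            (g (e y).1 (e y').1).filter (L0 ≤ ·) := by
          by_contra h; apply h2; simp only [hc]; rw [if_neg h]
        simp only [Finset.coe_image, Set.mem_image, Finset.mem_coe]
        refine ⟨((e y').1, ((e y').2 ∆ (e y).2).filter (· < L0)), ?_, ?_⟩
        · rw [Finset.mem_product, Finset.mem_powerset]
          refine ⟨?_, ?_⟩
          · simp only [Set.Finite.mem_toFinset, Metric.mem_closedBall]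
            rw [dist_comm]; exact h3
          · intro l hl; rw [Finset.mem_filter] at hl; exact Finset.mem_range.2 hl.2
        · simp only
          rw [mem_img h4, symmDiff_comm (e y').2, symmDiff_symmDiff_cancel_left]
          simp)
      (by
        intro y'
        apply fin_of_subset (hN (e y').1).1.toFinset N L0
          (by rw [← Set.ncard_eq_toFinset_card _ (hN (e y').1).1]; exact (hN (e y').1).2)
          (fun p => e.symm (p.1, (e y').2 ∆ (p.2 ∪ (g p.1 (e y').1).filter (L0 ≤ ·))))
        intro y hy'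
        simp only [Set.mem_ofPred_eq] at hy'
        have h1 := left_ne_zero_of_mul hy'
        have h2 := right_ne_zero_of_mul hy'
        have h3 : dist (e y).1 (e y').1 ≤ R := by
          by_contra h; exact h1 (hent _ _ h)
        have h4 : ((e y').2 ∆ (e y).2).filter (L0 ≤ ·) =
            (g (e y).1 (e y').1).filter (L0 ≤ ·) := by
          by_contra h; apply h2; simp only [hc]; rw [if_neg h]
        simp only [Finset.coe_image, Set.mem_image, Finset.mem_coe]
        refine ⟨((e y).1, ((e y').2 ∆ (e y).2).filter (· < L0)), ?_, ?_⟩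
        · rw [Finset.mem_product, Finset.mem_powerset]
          refine ⟨?_, ?_⟩
          · simp only [Set.Finite.mem_toFinset, Metric.mem_closedBall]
            exact h3
          · intro l hl; rw [Finset.mem_filter] at hl; exact Finset.mem_range.2 hl.2
        · simp only
          rw [mem_img h4, symmDiff_symmDiff_cancel_left]
          simp)
    have hSk' : ∀ x' x F' F, ent S (e.symm (x', F')) (e.symm (x, F)) =
        ent T x' x * c x' x (F' ∆ F) := by
      intro x' x F' F; rw [hSk]; simp
    refine ⟨S, ⟨K + ∑ l ∈ Finset.range L0, |W l|, ?_⟩, ?_⟩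
    · intro y' y hd
      obtain ⟨⟨x', F'⟩, rfl⟩ := e.symm.surjective y'
      obtain ⟨⟨x, F⟩, rfl⟩ := e.symm.surjective y
      rw [hSk']
      by_contra hne
      have h1 := left_ne_zero_of_mul hne
      have h2 := right_ne_zero_of_mul hne
      have h3 : dist x x' ≤ R := by
        by_contra h; exact h1 (hent _ _ h)
      have h4 : (F' ∆ F).filter (L0 ≤ ·) = (g x x').filter (L0 ≤ ·) := by
        by_contra h; apply h2; simp only [hc]; rw [if_neg h]
      have h5 := (hg x x' h3).1 F
      have h6 := dist_flip e W hW x' ((F ∆ g x x') ∆ F') (F ∆ g x x')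
      rw [symmDiff_symmDiff_cancel_left] at h6
      have h7 : (F ∆ g x x') ∆ F' ⊆ Finset.range L0 := by
        intro l hl
        rw [Finset.mem_range]
        by_contra hl0
        rw [not_lt] at hl0
        have h8 := Finset.ext_iff.1 h4 l
        simp only [Finset.mem_filter, Finset.mem_symmDiff, hl0, and_true] at h8
        simp only [Finset.mem_symmDiff] at hl
        tauto
      have h9 : ∑ l ∈ (F ∆ g x x') ∆ F', |W l| ≤ ∑ l ∈ Finset.range L0, |W l| :=
        Finset.sum_le_sum_of_subset_of_nonneg h7 (fun _ _ _ => abs_nonneg _)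
      have h10 := dist_triangle (e.symm (x, F)) (e.symm (x', F ∆ g x x')) (e.symm (x', F'))
      rw [dist_comm] at hd
      linarith
    · -- Schur
      have hb0 : 0 ≤ (2:ℝ) ^ L0 * (Real.exp (2 * K / 3 ^ L0) - 1) := by
        have : (1:ℝ) ≤ Real.exp (2 * K / 3 ^ L0) := Real.one_le_exp (by positivity)
        have h2 : (0:ℝ) ≤ Real.exp (2 * K / 3 ^ L0) - 1 := by linarith
        positivity
      have dif : ∀ x' x F' F L, (∀ l, L ≤ l → u l x' = 1 ∧ u l x = 1) →
          F' ∆ F ⊆ Finset.range L →
          ‖ent (Φ T - S) (e.symm (x', F')) (e.symm (x, F))‖ =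
            ‖ent T x' x‖ * ‖cf (om u x' x) L (F' ∆ F) - c x' x (F' ∆ F)‖ := by
        intro x' x F' F L h1 h2
        rw [ent_sub, hΦ T x' x F' F L h1 h2, hSk', ← mul_sub, norm_mul]
      have dif0 : ∀ x' x F' F, ¬ dist x x' ≤ R →
          ent (Φ T - S) (e.symm (x', F')) (e.symm (x, F)) = 0 := by
        intro x' x F' F h
        have h1 := dif x' x F' F (LU x' + LU x + ((F' ∆ F).sup id).succ)
          (fun l hl => ⟨hLU x' l (by omega), hLU x l (by omega)⟩)
          ((Finset.subset_range_sup_succ _).trans (Finset.range_mono (by omega)))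
        rw [hent _ _ h, norm_zero, zero_mul] at h1
        exact norm_eq_zero.1 h1
      have key : ∀ x' x L, dist x x' ≤ R → L0 ≤ L → g x x' ⊆ Finset.range L →
          ∑ D ∈ (Finset.range L).powerset,
            ‖ent T x' x‖ * ‖cf (om u x' x) L D - c x' x D‖ ≤
              ‖T‖ * (2 ^ L0 * (Real.exp (2 * K / 3 ^ L0) - 1)) := by
        intro x' x L h1 h2 h3
        rw [← Finset.mul_sum]
        exact mul_le_mul (norm_ent_le _ _ _)
          (hL1 (om u x' x) (g x x') K (how x' x) hK0 (hws x' x h1) L0 L h2 h3)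
          (Finset.sum_nonneg fun _ _ => norm_nonneg _) (norm_nonneg _)
      have hTb : 0 ≤ ‖T‖ * (2 ^ L0 * (Real.exp (2 * K / 3 ^ L0) - 1)) :=
        mul_nonneg (norm_nonneg _) hb0
      apply hS Y (Φ T - S) _ (by positivity)
      · intro y s
        obtain ⟨⟨x, F⟩, rfl⟩ := e.symm.surjective y
        set B := (hN x).1.toFinset with hB
        have hBc : (B.card : ℝ) ≤ N := by
          exact_mod_cast (by rw [hB, ← Set.ncard_eq_toFinset_card _ (hN x).1]; exact (hN x).2 : B.card ≤ N)
        set L := L0 + LU x + ∑ x' ∈ B, (LU x' + ((g x x').sup id).succ) +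
          ∑ y' ∈ s, ((F ∆ (e y').2).sup id).succ with hL
        have hBL : ∀ x' ∈ B, LU x' + ((g x x').sup id).succ ≤ L := by
          intro x' hx'
          have := Finset.single_le_sum (f := fun x' => LU x' + ((g x x').sup id).succ)
            (fun _ _ => Nat.zero_le _) hx'
          try simp only at this
          omega
        refine (gen e (fun y' => ‖ent (Φ T - S) y' (e.symm (x, F))‖) (fun _ => norm_nonneg _) F B
          s L ?_ ?_ _ ?_).trans (mul_le_mul_of_nonneg_right hBc hTb)
        · intro y' _ hne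
          obtain ⟨⟨x', F'⟩, rfl⟩ := e.symm.surjective y'
          rw [hB, Set.Finite.mem_toFinset, Metric.mem_closedBall, dist_comm]
          simp only [Equiv.apply_symm_apply]
          by_contra h
          apply hne
          try simp only
          rw [dif0 x' x F' F h, norm_zero]
        · intro y' hy'
          have := Finset.single_le_sum (f := fun y' => ((F ∆ (e y').2).sup id).succ)
            (fun _ _ => Nat.zero_le _) hy'
          try simp only at this
          exact (Finset.subset_range_sup_succ _).trans (Finset.range_mono (by omega))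
        · intro x' hx'
          have hd : dist x x' ≤ R := by
            rw [hB, Set.Finite.mem_toFinset, Metric.mem_closedBall, dist_comm] at hx'
            exact hx'
          have h5 := hBL x' hx'
          refine le_trans (le_of_eq (Finset.sum_congr rfl ?_)) (key x' x L hd (by omega)
            ((Finset.subset_range_sup_succ _).trans (Finset.range_mono (by omega))))
          intro D hD
          have h6 : (F ∆ D) ∆ F = D := by
            rw [symmDiff_comm F D, symmDiff_symmDiff_cancel_right]
          try simp only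
          rw [dif x' x (F ∆ D) F L (fun l hl => ⟨hLU x' l (by omega), hLU x l (by omega)⟩)
            (by rw [h6]; exact Finset.mem_powerset.1 hD), h6]
      · intro y' s
        obtain ⟨⟨x', F'⟩, rfl⟩ := e.symm.surjective y'
        set B := (hN x').1.toFinset with hB
        have hBc : (B.card : ℝ) ≤ N := by
          exact_mod_cast (by rw [hB, ← Set.ncard_eq_toFinset_card _ (hN x').1]; exact (hN x').2 : B.card ≤ N)
        set L := L0 + LU x' + ∑ x ∈ B, (LU x + ((g x x').sup id).succ) +
          ∑ y ∈ s, ((F' ∆ (e y).2).sup id).succ with hL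
        have hBL : ∀ x ∈ B, LU x + ((g x x').sup id).succ ≤ L := by
          intro x hx
          have := Finset.single_le_sum (f := fun x => LU x + ((g x x').sup id).succ)
            (fun _ _ => Nat.zero_le _) hx
          try simp only at this
          omega
        refine (gen e (fun y => ‖ent (Φ T - S) (e.symm (x', F')) y‖) (fun _ => norm_nonneg _) F' B
          s L ?_ ?_ _ ?_).trans (mul_le_mul_of_nonneg_right hBc hTb)
        · intro y _ hne
          obtain ⟨⟨x, F⟩, rfl⟩ := e.symm.surjective y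
          rw [hB, Set.Finite.mem_toFinset, Metric.mem_closedBall]
          simp only [Equiv.apply_symm_apply]
          by_contra h
          apply hne
          try simp only
          rw [dif0 x' x F' F h, norm_zero]
        · intro y hy
          have := Finset.single_le_sum (f := fun y => ((F' ∆ (e y).2).sup id).succ)
            (fun _ _ => Nat.zero_le _) hy
          try simp only at this
          exact (Finset.subset_range_sup_succ _).trans (Finset.range_mono (by omega))
        · intro x hx
          have hd : dist x x' ≤ R := by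
            rw [hB, Set.Finite.mem_toFinset, Metric.mem_closedBall] at hx
            exact hx
          have h5 := hBL x hx
          refine le_trans (le_of_eq (Finset.sum_congr rfl ?_)) (key x' x L hd (by omega)
            ((Finset.subset_range_sup_succ _).trans (Finset.range_mono (by omega))))
          intro D hD
          have h6 : F' ∆ (F' ∆ D) = D := symmDiff_symmDiff_cancel_left _ _
          try simp only
          rw [dif x' x F' (F' ∆ D) L (fun l hl => ⟨hLU x' l (by omega), hLU x l (by omega)⟩)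
            (by rw [h6]; exact Finset.mem_powerset.1 hD), h6]
  -- the limit
  rw [Metric.mem_closure_iff]
  intro ε hε
  have hlim : Filter.Tendsto (fun L0 : ℕ => (N : ℝ) * (‖T‖ * (2 * K * Real.exp (2 * K) *
      ((2:ℝ) / 3) ^ L0))) Filter.atTop (nhds 0) := by
    have h1 : Filter.Tendsto (fun L0 : ℕ => ((2:ℝ) / 3) ^ L0) Filter.atTop (nhds 0) :=
      tendsto_pow_atTop_nhds_zero_of_lt_one (by norm_num) (by norm_num)
    have h2 := h1.const_mul ((N : ℝ) * (‖T‖ * (2 * K * Real.exp (2 * K))))
    rw [mul_zero] at h2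
    refine h2.congr fun n => by ring
  obtain ⟨L0, hL0⟩ := (hlim.eventually (gt_mem_nhds hε)).exists
  obtain ⟨S, hS1, hS2⟩ := main L0
  refine ⟨S, hS1, ?_⟩
  rw [dist_eq_norm]
  refine lt_of_le_of_lt (hS2.trans ?_) hL0
  gcongr ?_ * (?_ * ?_)
  have h1 : Real.exp (2 * K / 3 ^ L0) - 1 ≤ 2 * K / 3 ^ L0 * Real.exp (2 * K / 3 ^ L0) := by
    have h2 := Real.add_one_le_exp (-(2 * K / 3 ^ L0))
    have h3 := Real.exp_pos (2 * K / 3 ^ L0)
    have h4 : Real.exp (-(2 * K / 3 ^ L0)) * Real.exp (2 * K / 3 ^ L0) = 1 := by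
      rw [← Real.exp_add]; simp
    nlinarith
  have h5 : 2 * K / 3 ^ L0 ≤ 2 * K := by
    apply div_le_self (by positivity)
    exact one_le_pow₀ (by norm_num)
  have h6 : Real.exp (2 * K / 3 ^ L0) ≤ Real.exp (2 * K) := Real.exp_le_exp.2 h5
  calc (2:ℝ) ^ L0 * (Real.exp (2 * K / 3 ^ L0) - 1)
      ≤ 2 ^ L0 * (2 * K / 3 ^ L0 * Real.exp (2 * K)) := by
        apply mul_le_mul_of_nonneg_left _ (by positivity)
        exact h1.trans (mul_le_mul_of_nonneg_left h6 (by positivity))
    _ = 2 * K * Real.exp (2 * K) * ((2:ℝ) / 3) ^ L0 := by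
        rw [div_pow]; field_simp

end Pool.Agent.H911R3.CT
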